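import Mathlib
import Pool.Agent.Lib.MP_5c685b_co.LogFinal
import Pool.Agent.Lib.MP_5c685b_co.Sec9
import Pool.Agent.Lib.MP_5c685b_co.A.R22

set_option autoImplicit false

/-!
# The exact order of the fractional decomposition threshold of complete 3-graphs

The fractional decomposition threshold of the complete 3-graph on `r` vertices is
`1 - Θ(log r / r^2)`.

Idea of the upper bound: a random clique built vertex by vertex from exact pair weights (a Riccati
flow for the pair weights which is closed by operator norm bounds), trace moments of a matrix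
martingale for the fluctuations, exponential moments for the other windows, linear duality.
-/

namespace Pool.Agent.Results.MP_5c685b_co.ExactFractionalOrderThree

open Finset

/-- There are `c, C > 0` such that for all `r > 3` the fractional decomposition threshold of the
complete 3-graph on `r` vertices (the infimum of the `δ ∈ [0,1]` for which every large 3-graph with
minimum codegree at least `δ n` has a fractional decomposition) lies between `1 - C log r / r^2` and
`1 - c log r / r^2`. -/
theorem result :
    ∃ c C : ℝ, 0 < c ∧ 0 < C ∧ ∀ r : ℕ, 3 < r →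
      sInf {δ : ℝ | 0 ≤ δ ∧ δ ≤ 1 ∧ ∃ n0 : ℕ, ∀ n : ℕ, n0 ≤ n →
        ∀ G : Finset (Finset (Fin n)),
          (∀ e ∈ G, e.card = 3) →
          (∀ A : Finset (Fin n), A.card = 2 →
            δ * (n : ℝ) ≤ ((G.filter (fun e => A ⊆ e)).card : ℝ)) →
          ∃ w : Finset (Fin n) → ℝ, (∀ S, 0 ≤ w S) ∧
            (∀ S, w S ≠ 0 → S.card = r ∧ ∀ e : Finset (Fin n), e ⊆ S → e.card = 3 → e ∈ G) ∧
            ∀ e ∈ G, ∑ S ∈ univ.filter (fun S => e ⊆ S), w S = 1}
      ∈ Set.Icc (1 - C * Real.log r / (r : ℝ) ^ 2) (1 - c * Real.log r / (r : ℝ) ^ 2) := by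
  obtain ⟨c, C, hc, hC, h⟩ := Pool.Agent.Lib.MP_5c685b_co.final_of_core
    (Pool.Agent.Lib.MP_5c685b_co.core_of_fin MP5cA.finThm)
  exact ⟨c, C, hc, hC, fun r hr => ⟨(h r hr).1, (h r hr).2⟩⟩

end Pool.Agent.Results.MP_5c685b_co.ExactFractionalOrderThree
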