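import Mathlib
import Pool.Agent.Lib.MP_5c685b_co.Params
import Pool.Agent.Lib.MP_5c685b_co.E.Upper3

set_option autoImplicit false

/-!
# The decomposition threshold of complete 3-graphs, `r = 3 mod 6`

The upper bound is an exact decomposition theorem: a divisible `3`-graph with minimum codegree at
least `(1 - c log r / r^2) n` is a union of a reserve, an absorber that completes every divisible
subset of the reserve, a packing found by a nibble that leaves few edges at every pair, and a few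
cliques that cover the leave with edges of the reserve.
-/

namespace Pool.Agent.Results.MP_5c685b_co.ExactOrderThree

/-- There are `c, C > 0` such that for all large `r = 3 mod 6` the decomposition threshold of the
complete `3`-graph on `r` vertices lies between `1 - C log r / r^2` and `1 - c log r / r^2`; so for
every `B` there are arbitrarily large `r` for which the threshold is smaller than `1 - B / r^2`. -/
theorem result :
    (∃ c C : ℝ, 0 < c ∧ 0 < C ∧ ∃ r₁ : ℕ, ∀ r : ℕ, r₁ ≤ r → 3 < r → r % 6 = 3 →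
      sInf {δ : ℝ | 0 ≤ δ ∧ δ ≤ 1 ∧ ∃ n0 : ℕ, ∀ n : ℕ, n0 ≤ n →
        ∀ G : Finset (Finset (Fin n)),
          (∀ e ∈ G, e.card = 3) →
          (∀ A : Finset (Fin n), A.card < 3 →
            Nat.choose (r - A.card) (3 - A.card) ∣ (G.filter (fun e => A ⊆ e)).card) →
          (∀ A : Finset (Fin n), A.card = 2 →
            δ * (n : ℝ) ≤ ((G.filter (fun e => A ⊆ e)).card : ℝ)) →
          ∃ 𝒮 : Finset (Finset (Fin n)),
            (∀ S ∈ 𝒮, S.card = r ∧ ∀ e : Finset (Fin n), e ⊆ S → e.card = 3 → e ∈ G) ∧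
            ∀ e ∈ G, ∃! S : Finset (Fin n), S ∈ 𝒮 ∧ e ⊆ S}
        ∈ Set.Icc (1 - C * Real.log r / (r : ℝ) ^ 2) (1 - c * Real.log r / (r : ℝ) ^ 2)) ∧
    ∀ B : ℝ, ∀ r₀ : ℕ, ∃ r : ℕ, r₀ ≤ r ∧ 3 < r ∧
      sInf {δ : ℝ | 0 ≤ δ ∧ δ ≤ 1 ∧ ∃ n0 : ℕ, ∀ n : ℕ, n0 ≤ n →
        ∀ G : Finset (Finset (Fin n)),
          (∀ e ∈ G, e.card = 3) →
          (∀ A : Finset (Fin n), A.card < 3 →
            Nat.choose (r - A.card) (3 - A.card) ∣ (G.filter (fun e => A ⊆ e)).card) →
          (∀ A : Finset (Fin n), A.card = 2 →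
            δ * (n : ℝ) ≤ ((G.filter (fun e => A ⊆ e)).card : ℝ)) →
          ∃ 𝒮 : Finset (Finset (Fin n)),
            (∀ S ∈ 𝒮, S.card = r ∧ ∀ e : Finset (Fin n), e ⊆ S → e.card = 3 → e ∈ G) ∧
            ∀ e ∈ G, ∃! S : Finset (Fin n), S ∈ 𝒮 ∧ e ⊆ S} <
        1 - B / (r : ℝ) ^ 2 := by
  obtain ⟨c, hc, r₁, hup⟩ := Pool.Agent.Lib.MP_5c685b_co.E.upper_three_sInf
  obtain ⟨C, hC, hlo⟩ := Pool.Agent.Lib.MP_5c685b_co.main_bound 3 (by norm_num)
  refine ⟨⟨c, C, hc, hC, r₁, fun r hr h3 hmod => ⟨?_, hup r hr hmod⟩⟩, fun B r₀ => ?_⟩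
  · exact hlo r h3
  · obtain ⟨N, hN⟩ := exists_nat_gt (Real.exp (B / c))
    obtain ⟨s, hs⟩ : ∃ s : ℕ, s = r₀ + r₁ + N + 1 := ⟨_, rfl⟩
    obtain ⟨r, hrdef⟩ : ∃ r : ℕ, r = 6 * s + 3 := ⟨_, rfl⟩
    have hrpos : (0 : ℝ) < r := by exact_mod_cast (by omega : 0 < r)
    have hNr : (N : ℝ) ≤ r := by exact_mod_cast (by omega : N ≤ r)
    have hlog : B < c * Real.log r := by
      have h1 : B / c < Real.log r := by
        rw [Real.lt_log_iff_exp_lt hrpos]
        exact hN.trans_le hNr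
      rw [div_lt_iff₀ hc] at h1
      linarith
    refine ⟨r, by omega, by omega, (hup r (by omega) (by omega)).trans_lt ?_⟩
    have hr2 : (0 : ℝ) < (r : ℝ) ^ 2 := by positivity
    have : B / (r : ℝ) ^ 2 < c * Real.log r / (r : ℝ) ^ 2 := div_lt_div_of_pos_right hlog hr2
    linarith

end Pool.Agent.Results.MP_5c685b_co.ExactOrderThree
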