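import Mathlib
import Pool.Agent.Lib.MP_5c685b_co.FE2

set_option autoImplicit false

/-!
# The fractional decomposition threshold of hypergraph cliques

For every `k ≥ 2` there is `c > 0` such that for all `r > k` the fractional decomposition threshold of
the complete `k`-graph on `r` vertices is at most `1 - c / r^(k-1)`.

Idea: choose a random partial assignment of vertices to `M = L r` slots by a signed measure of
Shearer type. Its marginals of all orders are exact products restricted to cliques, and it is
nonnegative (cluster bound) when the number of missing edges through a `(k-1)`-set is at most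
`c n / r^(k-1)`. Linear duality and the exponentially small probability of fewer than `r` occupied
slots give the decomposition.
-/

namespace Pool.Agent.Results.MP_5c685b_co.FractionalOrder

open Finset

/-- For every `k ≥ 2` there is `c > 0` such that for all `r > k` the fractional decomposition
threshold of the complete `k`-graph on `r` vertices (the infimum of the `δ ∈ [0,1]` for which every
large `k`-graph with minimum codegree at least `δ n` has a fractional decomposition) is at most
`1 - c / r^(k-1)`. -/
theorem result :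
    ∀ k : ℕ, 2 ≤ k → ∃ c : ℝ, 0 < c ∧ ∀ r : ℕ, k < r →
      sInf {δ : ℝ | 0 ≤ δ ∧ δ ≤ 1 ∧ ∃ n0 : ℕ, ∀ n : ℕ, n0 ≤ n →
        ∀ G : Finset (Finset (Fin n)),
          (∀ e ∈ G, e.card = k) →
          (∀ A : Finset (Fin n), A.card = k - 1 →
            δ * (n : ℝ) ≤ ((G.filter (fun e => A ⊆ e)).card : ℝ)) →
          ∃ w : Finset (Fin n) → ℝ, (∀ S, 0 ≤ w S) ∧
            (∀ S, w S ≠ 0 → S.card = r ∧ ∀ e : Finset (Fin n), e ⊆ S → e.card = k → e ∈ G) ∧
            ∀ e ∈ G, ∑ S ∈ univ.filter (fun S => e ⊆ S), w S = 1}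
      ≤ 1 - c / (r : ℝ) ^ (k - 1) := by
  intro k hk
  obtain ⟨c, hc, hc1, h⟩ := Pool.Agent.Lib.MP_5c685b_co.frac_main k hk
  refine ⟨c, hc, fun r hr => ?_⟩
  obtain ⟨n₀, hn₀⟩ := h r hr
  have hr1 : (1 : ℝ) ≤ (r : ℝ) ^ (k - 1) := one_le_pow₀ (by exact_mod_cast (by omega : 1 ≤ r))
  have hle : c / (r : ℝ) ^ (k - 1) ≤ 1 := by
    rw [div_le_one (by linarith)]
    linarith
  have hpos : 0 ≤ c / (r : ℝ) ^ (k - 1) := by positivity
  refine csInf_le ⟨0, fun δ hδ => hδ.1⟩ ⟨by linarith, by linarith, n₀, fun n hn G hG hcod => ?_⟩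
  obtain ⟨w, hw0, hw1, hw2⟩ := hn₀ n hn G hG (by
    intro A hA
    refine (hcod A hA).trans (le_of_eq (congrArg Nat.cast (congrArg Finset.card ?_)))
    ext x
    simp only [mem_filter])
  refine ⟨w, hw0, fun S hS => ⟨(hw1 S hS).1, fun e he hc => (hw1 S hS).2 e he hc⟩, fun e he => ?_⟩
  have h2 := hw2 e he
  rw [← h2]
  refine sum_congr ?_ fun _ _ => rfl
  ext S
  simp only [mem_filter]

end Pool.Agent.Results.MP_5c685b_co.FractionalOrder
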