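import Mathlib
import Pool.Agent.Lib.MP_5c685b_co.Params

set_option autoImplicit false

/-!
# A lower bound for the decomposition threshold of hypergraph cliques

For every `k ≥ 2` there is `C > 0` such that for all `r > k` the decomposition threshold of the
complete `k`-graph on `r` vertices is at least `1 - C log r / r^(k-1)`.  The proof makes a
high-codegree `k`-graph divisible: a random sparse system of `k`-sets of parts is blown up, every
part gets one removed clique of suitable size and `k-1` extra vertices correct the residues; the
resulting `k`-graph satisfies all divisibility conditions but a `(k-1)`-set inside one of the removed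
cliques lies in too few copies of the complete `k`-graph.
-/

namespace Pool.Agent.Results.MP_5c685b_co.LogLowerBound

/-- For every `k ≥ 2` there is `C > 0` such that for all `r > k` the decomposition threshold of
the complete `k`-graph on `r` vertices (the infimum of the admissible `δ ∈ [0,1]`, those for which
every large divisible `k`-graph with minimum codegree at least `δ n` has a decomposition) is at
least `1 - C log r / r^(k-1)`. -/
theorem result :
    ∀ k : ℕ, 2 ≤ k → ∃ C : ℝ, 0 < C ∧ ∀ r : ℕ, k < r →
      1 - C * Real.log r / (r : ℝ) ^ (k - 1) ≤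
      sInf {δ : ℝ | 0 ≤ δ ∧ δ ≤ 1 ∧ ∃ n0 : ℕ, ∀ n : ℕ, n0 ≤ n →
        ∀ G : Finset (Finset (Fin n)),
          (∀ e ∈ G, e.card = k) →
          (∀ A : Finset (Fin n), A.card < k →
            Nat.choose (r - A.card) (k - A.card) ∣ (G.filter (fun e => A ⊆ e)).card) →
          (∀ A : Finset (Fin n), A.card = k - 1 →
            δ * (n : ℝ) ≤ ((G.filter (fun e => A ⊆ e)).card : ℝ)) →
          ∃ 𝒮 : Finset (Finset (Fin n)),
            (∀ S ∈ 𝒮, S.card = r ∧ ∀ e : Finset (Fin n), e ⊆ S → e.card = k → e ∈ G) ∧
            ∀ e ∈ G, ∃! S : Finset (Fin n), S ∈ 𝒮 ∧ e ⊆ S} :=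
  fun k hk => Pool.Agent.Lib.MP_5c685b_co.main_bound k hk

end Pool.Agent.Results.MP_5c685b_co.LogLowerBound
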